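import Mathlib
import Pool.Agent.Lib.ZetaRay3

/-!
# The Lindelöf exponent is determined by the values of zeta on one ray

For every `A ≥ 0`, the bound `ζ(1/2 + it) = O(|t|^{A+ε})` for all `ε > 0` holds as soon as, for
every `B > A`, there is one ray from the origin on which `ζ(1/2 + it)` takes no value of modulus
larger than `t ^ B` for large `t`.  The case `A = 0` is the Lindelöf hypothesis.  For the negative
real axis: the Lindelöf hypothesis holds if and only if the real values of `ζ(1/2 + it)` (these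
are the values at the Gram points, and zeros) are bounded below by `-C t^ε`.
-/

namespace Pool.Agent.Results.MP_4e5e8a_nt.OneRay

open Complex Filter Topology Set
open Pool.Agent.Lib.ZetaLine Pool.Agent.Lib.ZetaRay

/-- **One ray suffices.**  Let `A ≥ 0` and choose any direction `φ B` for every `B`.  The bound
`ζ(1/2 + it) = O(|t|^{A + ε})` holds for all `ε > 0` if and only if for every `B > A`, for all
large `t`, the value `ζ(1/2 + it)` does not lie on the ray `{r e^{i φ(B)} : r > t ^ B}`. -/
theorem result : ∀ A : ℝ, 0 ≤ A → ∀ φ : ℝ → ℝ,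
    ((∀ ε : ℝ, 0 < ε → ∃ C : ℝ, ∀ t : ℝ,
        ‖riemannZeta (1 / 2 + t * I)‖ ≤ C * (1 + |t|) ^ (A + ε)) ↔
      (∀ B : ℝ, A < B → ∃ T : ℝ, ∀ t : ℝ, T ≤ t →
        ∀ r : ℝ, t ^ B < r → riemannZeta (1 / 2 + t * I) ≠ r * exp (φ B * I))) := by
  intro A hA φ
  constructor
  · intro h B hB
    obtain ⟨C, hC⟩ := h ((B - A) / 2) (by linarith)
    have h1 : Tendsto (fun t : ℝ => t ^ ((B - A) / 2)) atTop atTop :=
      tendsto_rpow_atTop (by linarith)
    obtain ⟨T, hT⟩ := eventually_atTop.mp
      ((h1.eventually_ge_atTop (|C| * 2 ^ (A + (B - A) / 2))).and (eventually_ge_atTop 1))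
    refine ⟨T, ?_⟩
    intro t ht r hr heq
    obtain ⟨h2, h3⟩ := hT t ht
    have h4 := hC t
    have ht0 : 0 < t := by linarith
    have hr0 : 0 < r := lt_trans (by positivity) hr
    have hn : ‖riemannZeta (1 / 2 + t * I)‖ = r := by
      rw [heq, norm_mul, Complex.norm_exp, Complex.norm_real, Real.norm_of_nonneg hr0.le]
      simp
    rw [hn] at h4
    have h5 : (1 + |t|) ^ (A + (B - A) / 2) ≤ (2 * t) ^ (A + (B - A) / 2) := by
      apply Real.rpow_le_rpow (by positivity) _ (by linarith)
      rw [abs_of_pos ht0]; linarith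
    rw [Real.mul_rpow (by norm_num) ht0.le] at h5
    have h6 : t ^ B = t ^ (A + (B - A) / 2) * t ^ ((B - A) / 2) := by
      rw [← Real.rpow_add ht0]; congr 1; ring
    have h7 : 0 < t ^ (A + (B - A) / 2) := by positivity
    have h8 : C * (1 + |t|) ^ (A + (B - A) / 2) ≤ |C| * (1 + |t|) ^ (A + (B - A) / 2) := by
      apply mul_le_mul_of_nonneg_right (le_abs_self C) (by positivity)
    have h9 : |C| * (1 + |t|) ^ (A + (B - A) / 2) ≤
        |C| * (2 ^ (A + (B - A) / 2) * t ^ (A + (B - A) / 2)) := by
      apply mul_le_mul_of_nonneg_left h5 (abs_nonneg C)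
    have h10 : (|C| * 2 ^ (A + (B - A) / 2)) * t ^ (A + (B - A) / 2) ≤
        t ^ ((B - A) / 2) * t ^ (A + (B - A) / 2) := by
      apply mul_le_mul_of_nonneg_right h2 h7.le
    rw [h6] at hr
    nlinarith
  · intro h ε hε
    obtain ⟨T, hT⟩ := h (A + ε / 2) (by linarith)
    set ω : ℂ := -exp (-(φ (A + ε / 2) * I)) with hω
    have hωn : ‖ω‖ = 1 := by rw [hω, norm_neg, Complex.norm_exp]; simp
    have h1 := ray_bound hωn (B := A + ε / 2) (T₀ := T) (by linarith) (by
      intro t ht r hr
      by_contra hneg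
      push Not at hneg
      apply hT t ht (-r) (by linarith)
      have h2 : riemannZeta (1 / 2 + t * I) =
          -(exp (φ (A + ε / 2) * I) * (ω * riemannZeta (1 / 2 + t * I))) := by
        rw [hω, neg_mul, mul_neg, neg_neg, ← mul_assoc, ← Complex.exp_add]
        simp
      rw [h2, hr]
      push_cast
      ring)
    have h2 := boundOn_half_of_forall (by linarith) h1 (ε / 2) (by linarith)
    have h3 := h2.line (by linarith)
    rwa [show A + ε / 2 + ε / 2 = A + ε by ring] at h3

end Pool.Agent.Results.MP_4e5e8a_nt.OneRay
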